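import Pool.Agent.H5.DPG.Stmts

set_option autoImplicit false

namespace Pool.DPG

open Filter TMLib Pool.PG

theorem lvc_msk_ne (g : Game) (hg : 0 < g.length) (f : ℕ → Bool) : msk g.length f ≠ [] := by
  intro h
  have h1 : (msk g.length f).length = g.length := by simp [msk]
  rw [h] at h1
  simp only [List.length_nil] at h1
  omega

theorem lvc_jn_ne (g : Game) (hg : 0 < g.length) (j : Bool) (B L : List Bool) (hL : L ≠ []) :
    jn g j B L ≠ [] := by
  unfold jn
  rw [if_neg hL]
  exact lvc_msk_ne g hg _

theorem lvc_card_lt (A X : Finset ℕ) (hAX : A ⊆ X) (hA : A.Nonempty) : (X \ A).card < X.card := by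
  apply Finset.card_lt_card
  refine ⟨Finset.sdiff_subset, ?_⟩
  intro h
  obtain ⟨a, ha⟩ := hA
  exact (Finset.mem_sdiff.1 (h (hAX ha))).2 ha

theorem lvc_thm (hSMD : SMDStmt) (hBDM : BDMStmt) (hFDS : FDSStmt) (hRCS : RCSStmt)
    (hBRC : BRCStmt) (hDSB : DSBStmt) (hATL : ATLStmt) (hFSB : FSBStmt) (hMPR : MPRStmt) :
    LVCStmt := by
  intro c S g K P hg hK hDen hpow hS hPh H t
  obtain ⟨-, hF2, hF3, -⟩ := hFSB
  induction t with
  | zero =>
    intro X _ _ h
    exact absurd h (Nat.not_lt_zero _)
  | succ t ih =>
    intro X hX hPX hcnt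
    show up c S g X (rc c S g t (nxt c g X)) ≠ []
    by_cases hb : bru c g X ≠ []
    · unfold up
      rw [if_pos hb]
      exact hb
    have hlarge : 72 * K < cnt X := by
      by_contra hle
      have hle' : cnt X ≤ 72 * K := Nat.le_of_not_lt hle
      apply hb
      apply hBRC c g X hg hX
      exact le_trans (Nat.pow_le_pow_right (by norm_num) hle') hpow
    have hXl : X.length = g.length := hX.1
    have hcard : cnt X = (fs g X).card := (hF3 g X hXl).1
    have hne : (fs g X).Nonempty := by
      rw [← Finset.card_pos]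
      omega
    have h64 : 64 * K ≤ (fs g X).card := by omega
    have key : ∀ (i : Bool) (T : List Bool), (fs g (att i g X T)).Nonempty →
        Sub g (dif g X (att i g X T)) ∧ rc c S g t (dif g X (att i g X T)) ≠ [] := by
      intro i T hT
      have hsub : Sub g (dif g X (att i g X T)) := (hDSB g i X T hX).1
      have hA := (hATL g i X T hXl).2
      refine ⟨hsub, ?_⟩
      refine ih _ hsub (hPh _ _ ?_ hPX) ?_
      · rw [hF2]
        exact Finset.sdiff_subset
      · rw [(hF3 g _ hsub.1).1, hF2]
        have h3 := lvc_card_lt _ _ hA.2.1 hT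
        omega
    by_cases hf : fnd c g X = []
    · have hnx : nxt c g X = dif g X (nA g X) := by
        unfold nxt
        rw [if_pos hf]
      have hMP := hMPR g X hne
      have hAne : (fs g (att (pl g X) g X (tp g X))).Nonempty := by
        obtain ⟨a, ha⟩ := hMP.2.2.1
        refine ⟨a, (hATL g (pl g X) X (tp g X) hXl).2.1 ?_⟩
        refine Finset.mem_inter.2 ⟨?_, ha⟩
        rw [hMP.2.1] at ha
        exact (Finset.mem_filter.1 ha).1
      obtain ⟨hsub, hL⟩ := key (pl g X) (tp g X) hAne
      have hLab : Lab g (dif g X (nA g X)) (rc c S g t (dif g X (nA g X))) :=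
        hRCS c S g hS t _ hsub hL
      unfold up
      rw [if_neg hb, if_pos hf, hnx]
      have hL' : rc c S g t (dif g X (nA g X)) ≠ [] := hL
      generalize rc c S g t (dif g X (nA g X)) = L at hLab hL'
      unfold zs
      rw [if_neg hL']
      by_cases hbad : ((bad g X L).any fun b => b) = false
      · rw [if_pos hbad]
        exact lvc_msk_ne g hg _
      · rw [if_neg hbad]
        apply lvc_jn_ne g hg
        have hbad' : (bad g X L).any (fun b => b) = true := by
          cases h : (bad g X L).any (fun b => b)
          · exact absurd h hbad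
          · rfl
        obtain ⟨hD, hBne⟩ := hBDM g X L hX hLab
        have hBne' := hBne hbad'
        have hAt := (hATL g (!pl g X) X (bad g X L) hXl).2
        have hCls : Cls g X (!pl g X) (fs g (att (!pl g X) g X (bad g X L))) := hAt.2.2.2.1
        refine H X _ (!pl g X) hX hPX (hDSB g _ X _ hX).1 hAt.2.1 hD hCls ?_
        exact hSMD c g K X (!pl g X) _ hg hDen hpow hX h64 hf hBne' hD hCls
    · have hnx : nxt c g X = dif g X (att (fs1 c g X).1 g X (fs1 c g X).2) := by
        unfold nxt
        rw [if_neg hf]
      have hmem : fs1 c g X ∈ fnd c g X := by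
        unfold fs1
        cases h : fnd c g X with
        | nil => exact absurd h hf
        | cons q l => simp
      have hq := hFDS c g X hX _ hmem
      obtain ⟨_, hL⟩ := key _ _ hq.1
      unfold up
      rw [if_neg hb, if_neg hf, hnx]
      exact lvc_jn_ne g hg _ _ _ hL

end Pool.DPG
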